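import Pool.Agent.Helper12.NK.St
import Pool.Agent.Helper35.PM.All

/-!
# Project NK (MP_d63854_co): module RPW
-/

set_option autoImplicit false

namespace Pool.Agent.Helper71.NK

open Pool.Agent.Helper12.NK
open Pool.Agent.Helper35.PM (Rot)
open Pool.Agent.Helper51.AJ (IsMinor)
open Equiv Equiv.Perm

private theorem class_count {D : Type} [Fintype D] (σ : Perm D) (k : ℕ)
    (h : ∀ d, ∃ s : Finset D, s.card = k ∧ ∀ e ∈ s, σ.SameCycle d e) :
    Nat.card (Quotient (SameCycle.setoid σ)) * k ≤ Fintype.card D := by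
  classical
  have hf : Fintype (Quotient (SameCycle.setoid σ)) := Fintype.ofFinite _
  rw [Nat.card_eq_fintype_card]
  have h1 : Fintype.card D = ∑ q : Quotient (SameCycle.setoid σ),
      (Finset.univ.filter
        (fun d : D => (Quotient.mk _ d : Quotient (SameCycle.setoid σ)) = q)).card := by
    rw [← Finset.card_univ]
    exact Finset.card_eq_sum_card_fiberwise (fun _ _ => Finset.mem_coe.2 (Finset.mem_univ _))
  have h2 : ∀ q ∈ (Finset.univ : Finset (Quotient (SameCycle.setoid σ))),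
      k ≤ (Finset.univ.filter
        (fun d : D => (Quotient.mk _ d : Quotient (SameCycle.setoid σ)) = q)).card := by
    intro q _
    obtain ⟨d, rfl⟩ := Quotient.exists_rep q
    obtain ⟨s, hs, hs'⟩ := h d
    rw [← hs]
    apply Finset.card_le_card
    intro e he
    rw [Finset.mem_filter]
    exact ⟨Finset.mem_univ _, Quotient.sound ((hs' e he).symm)⟩
  have h3 := Finset.card_nsmul_le_sum _ _ k h2
  rw [Finset.card_univ, smul_eq_mul] at h3
  omega

private theorem phi_ne {V : Type} {G : SimpleGraph V} (R : Rot G) (d : G.Dart) : R.φ d ≠ d := by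
  intro h
  have h1 := R.φ_fst d
  rw [h] at h1
  exact G.ne_of_adj d.adj h1

private theorem phi2_ne {V : Type} {G : SimpleGraph V} (R : Rot G)
    (hdeg : ∀ a b, G.Adj a b → ∃ c, c ≠ b ∧ G.Adj a c) (d : G.Dart) : R.φ (R.φ d) ≠ d := by
  intro h
  have h1 := R.φ_fst d
  have h2 := R.φ_fst (R.φ d)
  rw [h] at h2
  have h3 : R.φ d = d.symm := by
    apply SimpleGraph.Dart.ext
    exact Prod.ext h1 h2.symm
  rw [R.φ_apply] at h3
  obtain ⟨c, hc, hadj⟩ := hdeg d.snd d.fst d.adj.symm
  have h4 : R.r.SameCycle d.symm ⟨(d.snd, c), hadj⟩ := R.trans _ _ rfl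
  have h5 : Function.IsFixedPt R.r d.symm := h3
  have h6 := (h4.eq_of_left h5)
  have h7 := congrArg (fun e : G.Dart => e.snd) h6
  exact hc h7.symm

private theorem same1 {D : Type} (σ : Perm D) (d : D) : σ.SameCycle d (σ d) := ⟨1, by simp⟩

private theorem same2 {D : Type} (σ : Perm D) (d : D) : σ.SameCycle d (σ (σ d)) :=
  (same1 σ d).trans (same1 σ _)

private theorem same3 {D : Type} (σ : Perm D) (d : D) : σ.SameCycle d (σ (σ (σ d))) :=
  (same2 σ d).trans (same1 σ _)

private theorem k5 : ¬ RPlanar (⊤ : SimpleGraph (Fin 5)) := by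
  classical
  rintro ⟨R⟩
  have hdeg : ∀ a b, (⊤ : SimpleGraph (Fin 5)).Adj a b → ∃ c, c ≠ b ∧ (⊤ : SimpleGraph (Fin 5)).Adj a c := by
    decide
  have h1 := Pool.Agent.Helper35.PM.stEul (Fin 5) (⊤ : SimpleGraph (Fin 5)) R
    SimpleGraph.connected_top (by simp)
  have h2 := class_count R.φ 3 (by
    intro d
    have n1 := phi_ne R d
    have n2 := phi2_ne R hdeg d
    have n3 : R.φ (R.φ d) ≠ R.φ d := fun h => n1 (R.φ.injective h)
    refine ⟨{d, R.φ d, R.φ (R.φ d)}, ?_, ?_⟩
    · rw [Finset.card_eq_three]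
      exact ⟨_, _, _, n1.symm, n2.symm, n3.symm, rfl⟩
    · intro e he
      simp only [Finset.mem_insert, Finset.mem_singleton] at he
      rcases he with rfl | rfl | rfl
      · exact SameCycle.refl _ _
      · exact same1 _ _
      · exact same2 _ _)
  have h3 : Fintype.card (⊤ : SimpleGraph (Fin 5)).Dart = 2 * (⊤ : SimpleGraph (Fin 5)).edgeFinset.card :=
    SimpleGraph.dart_card_eq_twice_card_edges _
  have h4 : (⊤ : SimpleGraph (Fin 5)).edgeFinset.card = 10 := by
    rw [SimpleGraph.card_edgeFinset_top_eq_card_choose_two]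
    rfl
  rw [h4] at h3 h1
  simp only [Fintype.card_fin] at h1
  push_cast at h1
  omega

private theorem k33 : ¬ RPlanar (completeBipartiteGraph (Fin 3) (Fin 3)) := by
  classical
  rintro ⟨R⟩
  have hdeg : ∀ a b, (completeBipartiteGraph (Fin 3) (Fin 3)).Adj a b →
      ∃ c, c ≠ b ∧ (completeBipartiteGraph (Fin 3) (Fin 3)).Adj a c := by
    rintro (a | a) (b | b) h
    · simp at h
    · exact ⟨Sum.inr (b + 1), by simp, by simp⟩
    · exact ⟨Sum.inl (b + 1), by simp, by simp⟩
    · simp at h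
  have hcon : (completeBipartiteGraph (Fin 3) (Fin 3)).Connected := by
    rw [SimpleGraph.connected_iff_exists_forall_reachable]
    refine ⟨Sum.inl 0, ?_⟩
    rintro (a | a)
    · exact (SimpleGraph.Adj.reachable (show (completeBipartiteGraph (Fin 3) (Fin 3)).Adj
        (Sum.inl 0) (Sum.inr 0) by simp)).trans
        (SimpleGraph.Adj.reachable (show (completeBipartiteGraph (Fin 3) (Fin 3)).Adj
        (Sum.inr 0) (Sum.inl a) by simp))
    · exact SimpleGraph.Adj.reachable (by simp)
  have h1 := Pool.Agent.Helper35.PM.stEul (Fin 3 ⊕ Fin 3) (completeBipartiteGraph (Fin 3) (Fin 3)) R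
    hcon (by simp)
  have hpar0 : ∀ a b, (completeBipartiteGraph (Fin 3) (Fin 3)).Adj a b → b.isLeft = !a.isLeft := by
    rintro (a | a) (b | b) h
    · simp at h
    · rfl
    · rfl
    · simp at h
  have hpar : ∀ d : (completeBipartiteGraph (Fin 3) (Fin 3)).Dart, d.snd.isLeft = !d.fst.isLeft :=
    fun d => hpar0 _ _ d.adj
  have h2 := class_count R.φ 4 (by
    intro d
    have n1 := phi_ne R d
    have n2 := phi2_ne R hdeg d
    have n3 : R.φ (R.φ (R.φ d)) ≠ d := by
      intro h
      have e1 := hpar d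
      have e2 := hpar (R.φ d)
      have e3 := hpar (R.φ (R.φ d))
      rw [← R.φ_fst] at e1 e2 e3
      rw [h, e2, e1] at e3
      revert e3
      cases d.fst.isLeft <;> decide
    have i1 : ∀ x y, x ≠ y → R.φ x ≠ R.φ y := fun x y h h' => h (R.φ.injective h')
    refine ⟨{d, R.φ d, R.φ (R.φ d), R.φ (R.φ (R.φ d))}, ?_, ?_⟩
    · rw [Finset.card_insert_of_notMem, Finset.card_eq_three.2
        ⟨_, _, _, i1 _ _ n1.symm, i1 _ _ n2.symm, i1 _ _ (i1 _ _ n1.symm), rfl⟩]
      simp only [Finset.mem_insert, Finset.mem_singleton, not_or]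
      exact ⟨n1.symm, n2.symm, n3.symm⟩
    · intro e he
      simp only [Finset.mem_insert, Finset.mem_singleton] at he
      rcases he with rfl | rfl | rfl | rfl
      · exact SameCycle.refl _ _
      · exact same1 _ _
      · exact same2 _ _
      · exact same3 _ _)
  have h3 : Fintype.card (completeBipartiteGraph (Fin 3) (Fin 3)).Dart =
      2 * (completeBipartiteGraph (Fin 3) (Fin 3)).edgeFinset.card :=
    SimpleGraph.dart_card_eq_twice_card_edges _
  have h4 : (completeBipartiteGraph (Fin 3) (Fin 3)).edgeFinset.card = 9 := by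
    have h5 := SimpleGraph.encard_edgeSet_completeBipartiteGraph (W₁ := Fin 3) (W₂ := Fin 3)
    rw [← SimpleGraph.coe_edgeFinset, Set.encard_coe_eq_coe_finsetCard] at h5
    have h6 : ((completeBipartiteGraph (Fin 3) (Fin 3)).edgeFinset.card : ℕ∞) = ((9 : ℕ) : ℕ∞) := by
      rw [h5]
      simp
      norm_num
    exact_mod_cast h6
  rw [h4] at h3 h1
  simp only [Fintype.card_sum, Fintype.card_fin] at h1
  push_cast at h1
  omega

private theorem minor_rplanar {V W : Type} [Finite V] {K : SimpleGraph W} {H : SimpleGraph V}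
    (hR : RPlanar H) (h : IsMinor K H) : RPlanar K := by
  classical
  obtain ⟨R⟩ := hR
  obtain ⟨B, hB1, hB2, hB3⟩ := h
  have hfV : Fintype V := Fintype.ofFinite V
  have hfD : Fintype H.Dart := Fintype.ofFinite _
  refine Pool.Agent.Helper35.PM.stMin (Fintype.card H.Dart) V W H.Dart R.map K B le_rfl ?_ hB2 ?_ ?_
  · intro w
    obtain ⟨x⟩ := (hB1 w).nonempty
    exact ⟨x.1, x.2⟩
  · intro w a ha b hb
    obtain ⟨p⟩ := (hB1 w).preconnected ⟨a, ha⟩ ⟨b, hb⟩
    have key : ∀ (x y : B w), (H.induce (B w)).Walk x y → Relation.ReflTransGen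
        (fun p q => p ∈ B w ∧ q ∈ B w ∧ ∃ d, R.map.t d = p ∧ R.map.t (R.map.ι d) = q) x.1 y.1 := by
      intro x y q
      induction q with
      | nil => exact Relation.ReflTransGen.refl
      | @cons u v w' hadj _ ih =>
        refine Relation.ReflTransGen.head ⟨u.2, v.2, ⟨(u.1, v.1), hadj⟩, rfl, rfl⟩ ih
    exact key _ _ p
  · intro w w' hww
    obtain ⟨x, hx, y, hy, hxy⟩ := hB3 w w' hww
    exact ⟨⟨(x, y), hxy⟩, hx, hy⟩

theorem hRPW : StRPW := by
  intro V _ H hR
  exact ⟨fun h => k5 (minor_rplanar hR h), fun h => k33 (minor_rplanar hR h)⟩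

end Pool.Agent.Helper71.NK
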